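import Mathlib
import Pool.Agent.H567.Nec.Transfer

set_option autoImplicit false
set_option linter.unusedSectionVars false

namespace Pool.Agent.H505R3.PRE

open Finset Equiv MvPolynomial Pool.Agent.H567.Nec

section block

variable {R : Type*} [CommRing R] {ι κ : Type*} [Fintype ι] [DecidableEq ι] [Fintype κ]
  [DecidableEq κ]

lemma permanent_fromBlocks_one (M : Matrix ι ι R) :
    (Matrix.fromBlocks M 0 0 (1 : Matrix κ κ R)).permanent = M.permanent := by
  classical
  unfold Matrix.permanent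
  symm
  apply Finset.sum_of_injOn (fun π : Perm ι => Equiv.sumCongr π (1 : Perm κ))
  · intro a _ b _ h
    ext i
    have := congrArg (fun e : Perm (ι ⊕ κ) => e (Sum.inl i)) h
    simpa using this
  · intro a _
    simp
  · intro σ _ hσ
    by_cases hk : ∃ k : κ, σ (Sum.inr k) ≠ Sum.inr k
    · obtain ⟨k, hk⟩ := hk
      apply Finset.prod_eq_zero (Finset.mem_univ (Sum.inr k : ι ⊕ κ))
      rcases h : σ (Sum.inr k) with a | b
      · simp [Matrix.fromBlocks]
      · have hb : b ≠ k := by
          rintro rfl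
          exact hk h
        simp [Matrix.fromBlocks, Matrix.one_apply_ne hb]
    · push Not at hk
      exfalso
      have hm : Set.MapsTo σ (Set.range (Sum.inl : ι → ι ⊕ κ)) (Set.range Sum.inl) := by
        rintro _ ⟨i, rfl⟩
        rcases h : σ (Sum.inl i) with a | b
        · exact ⟨a, rfl⟩
        · exfalso
          have h9 : σ (Sum.inr b) = σ (Sum.inl i) := by rw [hk b, h]
          have h10 := σ.injective h9
          cases h10
      obtain ⟨⟨π, ρ⟩, hπ⟩ := Equiv.Perm.mem_sumCongrHom_range_of_perm_mapsTo_inl hm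
      apply hσ
      refine ⟨π, Finset.mem_coe.2 (Finset.mem_univ _), ?_⟩
      rw [← hπ]
      have hρ : ρ = 1 := by
        ext k
        have := hk k
        rw [← hπ] at this
        simpa using this
      subst hρ
      rfl
  · intro π _
    rw [Fintype.prod_sum_type]
    simp

end block

/-- The first order jet at the point `x` in the directions of the variables `w p`. -/
noncomputable def jet {K : Type*} [Field K] {σ ω : Type*} [DecidableEq σ] (w : ω → σ) (x : σ → K) (v : σ) :
    TrivSqZeroExt K (ω → K) :=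
  TrivSqZeroExt.inl (x v) + TrivSqZeroExt.inr (fun p => if w p = v then 1 else 0)

/-- Points at which the gradients of the permanent span everything. -/
theorem exists_points (K : Type*) [Field K] [CharZero K] (m ℓ n' : ℕ) (hm : 2 * ℓ + n' ≤ m)
    (hn : n' ≤ 2 ^ ℓ) (r c : Fin (2 * ℓ) → Fin m) (hr : Function.Injective r)
    (hc : Function.Injective c) :
    ∃ (Ξ : Type) (w : Fin n' × Fin n' → Fin m × Fin m) (x : (Ξ → K) → (Fin m × Fin m) → K),
      Function.Injective w ∧ (∀ p s, w p ≠ (r s, c s)) ∧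
      (∀ ξ ξ' v, (∀ s, v ≠ (r s, c s)) → x ξ v = x ξ' v) ∧
      (∀ A : Submodule K (Fin n' × Fin n' → K),
        (∀ ξ, (MvPolynomial.aeval (jet w (x ξ)) (gperm K m)).snd ∈ A) → A = ⊤) := by
  classical
  obtain ⟨k, hk⟩ : ∃ k, 2 * ℓ + n' + k = m := ⟨m - (2 * ℓ + n'), by omega⟩
  let eF : Fin ℓ ⊕ Fin ℓ ≃ Fin (2 * ℓ) := finSumFinEquiv.trans (finCongr (by ring))
  obtain ⟨er, her⟩ := exists_equiv_extend (ν := Fin n' ⊕ Fin k) (r ∘ eF) (hr.comp eF.injective)
    (by simp; omega)
  obtain ⟨ec, hec⟩ := exists_equiv_extend (ν := Fin n' ⊕ Fin k) (c ∘ eF) (hc.comp eF.injective)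
    (by simp; omega)
  let A0 : (Ix (Fin ℓ) (Fin ℓ) (Fin n')) ⊕ Fin k ≃ (Fin ℓ ⊕ Fin ℓ) ⊕ (Fin n' ⊕ Fin k) :=
    (Equiv.sumCongr (Equiv.sumAssoc _ _ _).symm (Equiv.refl _)).trans (Equiv.sumAssoc _ _ _)
  let Er : (Ix (Fin ℓ) (Fin ℓ) (Fin n')) ⊕ Fin k ≃ Fin m := A0.trans er
  let Ec : (Ix (Fin ℓ) (Fin ℓ) (Fin n')) ⊕ Fin k ≃ Fin m := A0.trans ec
  have hEr : ∀ s : Fin ℓ ⊕ Fin ℓ, Er (Sum.inl (dg s)) = r (eF s) := by
    intro s
    have := her s
    rcases s with s | s <;> exact this
  have hEc : ∀ s : Fin ℓ ⊕ Fin ℓ, Ec (Sum.inl (dg s)) = c (eF s) := by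
    intro s
    have := hec s
    rcases s with s | s <;> exact this
  obtain ⟨code⟩ : Nonempty (Fin n' ↪ (Fin ℓ → Bool)) := by
    apply Function.Embedding.nonempty_of_card_le
    simpa using hn
  let u : Fin ℓ → Fin n' → K := fun s j => if code j s then (1 : K) else 0
  let w : Fin n' × Fin n' → Fin m × Fin m := fun p =>
    (Er (Sum.inl (Sum.inr (Sum.inr p.1))), Ec (Sum.inl (Sum.inr (Sum.inr p.2))))
  let x : ((Fin ℓ ⊕ Fin ℓ) → K) → (Fin m × Fin m) → K := fun ξ v =>
    (Matrix.fromBlocks (Mx (wtx u (fun s => ξ (Sum.inl s))) (wtx u (fun s => ξ (Sum.inr s)))) 0 0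
      (1 : Matrix (Fin k) (Fin k) K)) (Er.symm v.1) (Ec.symm v.2)
  have hw : Function.Injective w := by
    intro p q h
    have h1 := congrArg Prod.fst h
    have h2 := congrArg Prod.snd h
    simp only [w] at h1 h2
    have h3 := Er.injective h1
    have h4 := Ec.injective h2
    simp only [Sum.inl.injEq, Sum.inr.injEq] at h3 h4
    exact Prod.ext h3 h4
  refine ⟨Fin ℓ ⊕ Fin ℓ, w, x, hw, ?_, ?_, ?_⟩
  · intro p s h
    obtain ⟨s', rfl⟩ := eF.surjective s
    have h1 : Er (Sum.inl (Sum.inr (Sum.inr p.1))) = r (eF s') := congrArg Prod.fst h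
    rw [← hEr] at h1
    have h3 := Er.injective h1
    rcases s' with s' | s' <;> simp [dg] at h3
  · intro ξ ξ' v hv
    simp only [x]
    rcases h1 : Er.symm v.1 with a | a <;> rcases h2 : Ec.symm v.2 with b | b
    · simp only [Matrix.fromBlocks_apply₁₁]
      apply Mx_indep
      rintro s ⟨h3, h4⟩
      apply hv (eF s)
      rw [Equiv.symm_apply_eq] at h1 h2
      rw [h3, hEr] at h1
      rw [h4, hEc] at h2
      exact Prod.ext h1 h2
    · simp
    · simp
    · simp
  · intro A hA
    apply span_perm (K := K) (ν := Fin n') (fun j => code j) code.injective (fun j => code j)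
      code.injective
    intro xx y
    have h := hA (Sum.elim xx y)
    convert h using 2
    rw [← permanent_fromBlocks_one (κ := Fin k)]
    unfold gperm Matrix.permanent
    rw [map_sum]
    simp only [map_prod, Matrix.of_apply, MvPolynomial.aeval_X]
    let E : Perm ((Ix (Fin ℓ) (Fin ℓ) (Fin n')) ⊕ Fin k) ≃ Perm (Fin m) :=
      { toFun := fun σ => (Ec.symm.trans σ).trans Er
        invFun := fun π => (Ec.trans π).trans Er.symm
        left_inv := by intro σ; ext a; simp
        right_inv := by intro π; ext a; simp }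
    rw [← Equiv.sum_comp E]
    apply Finset.sum_congr rfl
    intro σ _
    rw [← Equiv.prod_comp Ec]
    apply Finset.prod_congr rfl
    intro a _
    have hE : (E σ) (Ec a) = Er (σ a) := by simp [E]
    rw [hE]
    unfold jet
    simp only [x, Equiv.symm_apply_apply, Sum.elim_inl, Sum.elim_inr]
    have hwa : ∀ p, (w p = (Er (σ a), Ec a)) ↔
        (σ a = Sum.inl (Sum.inr (Sum.inr p.1)) ∧ a = Sum.inl (Sum.inr (Sum.inr p.2))) := by
      intro p
      simp only [w, Prod.mk.injEq, EmbeddingLike.apply_eq_iff_eq]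
      constructor
      · rintro ⟨h1, h2⟩; exact ⟨h1.symm, h2.symm⟩
      · rintro ⟨h1, h2⟩; exact ⟨h1.symm, h2.symm⟩
    simp only [hwa]
    rcases hs : σ a with b | b <;> rcases a with a | a
    · simp only [Matrix.fromBlocks_apply₁₁, Mt, Sum.inl.injEq]
      congr 2
      funext p
      rcases b with b | (b | b) <;> rcases a with a | (a | a) <;> simp [ee, Pi.single_apply, Prod.ext_iff, eq_comm]
    · simp
      rfl
    · simp
      rfl
    · simp only [Matrix.fromBlocks_apply₂₂]
      by_cases hab : b = a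
      · subst hab
        simp
        rfl
      · simp [Matrix.one_apply_ne hab]
        rfl

end Pool.Agent.H505R3.PRE
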