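import Mathlib
import Pool.Agent.H505R3.PRE.Points

set_option autoImplicit false
set_option linter.unusedSectionVars false

namespace Pool.Agent.H505R3.PRE

open MvPolynomial

/-- `Program S n A`: the set `A` consists of `S` and of the results of a straight-line program with
`n` operations `+, -, *, /`, each applied to elements of `S` or earlier results. -/
inductive Program {F : Type*} [Field F] (S : Set F) : ℕ → Set F → Prop
  | start : Program S 0 S
  | step {n : ℕ} {A : Set F} {a b c : F} : Program S n A → a ∈ A → b ∈ A →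
      (c = a + b ∨ c = a - b ∨ c = a * b ∨ c = a / b) → Program S (n + 1) (insert c A)

lemma Program.mono {F : Type*} [Field F] {S S' : Set F} (hS : S ⊆ S') {n : ℕ} {A : Set F}
    (h : Program S n A) : ∃ A', A ⊆ A' ∧ Program S' n A' := by
  induction h with
  | start => exact ⟨S', hS, Program.start⟩
  | step h ha hb hc ih =>
    obtain ⟨A', h1, h2⟩ := ih
    exact ⟨_, Set.insert_subset_insert h1, h2.step (h1 ha) (h1 hb) hc⟩

/-- The field of rational functions in the variables `σ`. -/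
abbrev Rat (K σ : Type*) [Field K] : Type _ := FractionRing (MvPolynomial σ K)

/-- The rational functions in which no variable of `T` occurs: quotients of two polynomials in the
variables outside `T`. -/
def Free (K : Type*) {σ : Type*} [Field K] (T : Set σ) : Set (Rat K σ) :=
  {q | ∃ n ∈ supported K Tᶜ, ∃ d ∈ supported K Tᶜ,
    q = algebraMap (MvPolynomial σ K) (Rat K σ) n / algebraMap (MvPolynomial σ K) (Rat K σ) d}

/-- The variable `v` as a rational function. -/
noncomputable def var (K : Type*) {σ : Type*} [Field K] (v : σ) : Rat K σ :=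
  algebraMap (MvPolynomial σ K) (Rat K σ) (X v)

/-- What is available at no cost: everything that does not depend on the variables in `T`, and the
variables in `T`. -/
def Avail (K : Type*) {σ : Type*} [Field K] (T : Set σ) : Set (Rat K σ) :=
  Free K T ∪ var K '' T

section

variable {K σ ω : Type*} [Field K] [DecidableEq σ]

/-- evaluation of polynomials at the jet -/
noncomputable abbrev J (w : ω → σ) (x : σ → K) : MvPolynomial σ K →ₐ[K] TrivSqZeroExt K (ω → K) :=
  aeval (jet w x)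

lemma fst_J (w : ω → σ) (x : σ → K) (f : MvPolynomial σ K) : (J w x f).fst = eval x f := by
  have h : (TrivSqZeroExt.fstHom K K (ω → K)).comp (J w x) = aeval x := by
    apply MvPolynomial.algHom_ext
    intro v
    simp [J, jet]
  have := congrArg (fun φ : MvPolynomial σ K →ₐ[K] K => φ f) h
  simp only [AlgHom.comp_apply, TrivSqZeroExt.fstHom_apply] at this
  rw [this]
  rfl

lemma snd_J (w : ω → σ) (x : σ → K) (f : MvPolynomial σ K) (p : ω) :
    (J w x f).snd p = eval x (pderiv (w p) f) := by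
  classical
  induction f using MvPolynomial.induction_on with
  | C a =>
    rw [J, aeval_C, TrivSqZeroExt.algebraMap_eq_inl]
    simp
  | add f g hf hg => rw [map_add, TrivSqZeroExt.snd_add, Pi.add_apply, hf, hg, map_add, map_add]
  | mul_X f v hf =>
    rw [map_mul, TrivSqZeroExt.snd_mul, Pi.add_apply, Derivation.leibniz]
    simp only [Pi.smul_apply, smul_eq_mul, MulOpposite.smul_eq_mul_unop, MulOpposite.unop_op, fst_J, hf,
      map_add, map_mul, eval_X, pderiv_X]
    have h1 : (J w x (X v)).snd p = if w p = v then 1 else 0 := by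
      simp [J, jet]
    rw [h1]
    by_cases h : w p = v
    · subst h
      simp
      ring
    · rw [if_neg h, Pi.single_eq_of_ne (Ne.symm h)]
      simp
      ring

lemma isUnit_J {w : ω → σ} {x : σ → K} {d : MvPolynomial σ K} (hd : eval x d ≠ 0) :
    IsUnit (J w x d) := by
  rw [TrivSqZeroExt.isUnit_iff_isUnit_fst, fst_J]
  exact IsUnit.mk0 _ hd

/-- The rational function `e` is regular at `x` and has the jet `j`. -/
def Reg (w : ω → σ) (x : σ → K) (e : Rat K σ) (j : TrivSqZeroExt K (ω → K)) : Prop :=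
  ∃ n d : MvPolynomial σ K, eval x d ≠ 0 ∧
    e * algebraMap (MvPolynomial σ K) (Rat K σ) d = algebraMap (MvPolynomial σ K) (Rat K σ) n ∧
    J w x n = j * J w x d

lemma Reg.unique {w : ω → σ} {x : σ → K} {e : Rat K σ} {j j' : TrivSqZeroExt K (ω → K)}
    (h : Reg w x e j) (h' : Reg w x e j') : j = j' := by
  obtain ⟨n, d, h1, h2, h3⟩ := h
  obtain ⟨n', d', h1', h2', h3'⟩ := h'
  have h4 : n * d' = n' * d := by
    apply IsFractionRing.injective (MvPolynomial σ K) (Rat K σ)
    rw [map_mul, map_mul, ← h2, ← h2']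
    ring
  have h5 := congrArg (J w x) h4
  rw [map_mul, map_mul, h3, h3'] at h5
  have h6 : j * (J w x d * J w x d') = j' * (J w x d * J w x d') := by
    rw [← mul_assoc, h5]; ring
  exact ((isUnit_J h1).mul (isUnit_J h1')).mul_right_cancel h6

lemma reg_poly (w : ω → σ) (x : σ → K) (f : MvPolynomial σ K) :
    Reg w x (algebraMap (MvPolynomial σ K) (Rat K σ) f) (J w x f) :=
  ⟨f, 1, by simp, by simp, by simp⟩

lemma Reg.add {w : ω → σ} {x : σ → K} {e e' : Rat K σ} {j j' : TrivSqZeroExt K (ω → K)}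
    (h : Reg w x e j) (h' : Reg w x e' j') : Reg w x (e + e') (j + j') := by
  obtain ⟨n, d, h1, h2, h3⟩ := h
  obtain ⟨n', d', h1', h2', h3'⟩ := h'
  refine ⟨n * d' + n' * d, d * d', ?_, ?_, ?_⟩
  · rw [map_mul]; exact mul_ne_zero h1 h1'
  · rw [map_add, map_mul, map_mul, map_mul, ← h2, ← h2']; ring
  · rw [map_add, map_mul, map_mul, map_mul, h3, h3']; ring

lemma Reg.sub {w : ω → σ} {x : σ → K} {e e' : Rat K σ} {j j' : TrivSqZeroExt K (ω → K)}
    (h : Reg w x e j) (h' : Reg w x e' j') : Reg w x (e - e') (j - j') := by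
  obtain ⟨n, d, h1, h2, h3⟩ := h
  obtain ⟨n', d', h1', h2', h3'⟩ := h'
  refine ⟨n * d' - n' * d, d * d', ?_, ?_, ?_⟩
  · rw [map_mul]; exact mul_ne_zero h1 h1'
  · rw [map_sub, map_mul, map_mul, map_mul, ← h2, ← h2']; ring
  · rw [map_sub, map_mul, map_mul, map_mul, h3, h3']; ring

lemma Reg.mul {w : ω → σ} {x : σ → K} {e e' : Rat K σ} {j j' : TrivSqZeroExt K (ω → K)}
    (h : Reg w x e j) (h' : Reg w x e' j') : Reg w x (e * e') (j * j') := by
  obtain ⟨n, d, h1, h2, h3⟩ := h
  obtain ⟨n', d', h1', h2', h3'⟩ := h'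
  refine ⟨n * n', d * d', ?_, ?_, ?_⟩
  · rw [map_mul]; exact mul_ne_zero h1 h1'
  · rw [map_mul, map_mul, ← h2, ← h2']; ring
  · rw [map_mul, map_mul, h3, h3']; ring

lemma Reg.div {w : ω → σ} {x : σ → K} {e e' : Rat K σ} {j j' : TrivSqZeroExt K (ω → K)}
    (h : Reg w x e j) (h' : Reg w x e' j') (hj : j'.fst ≠ 0) : Reg w x (e / e') (j * j'⁻¹) := by
  obtain ⟨n, d, h1, h2, h3⟩ := h
  obtain ⟨n', d', h1', h2', h3'⟩ := h'
  have hn' : eval x n' ≠ 0 := by
    rw [← fst_J w, h3', TrivSqZeroExt.fst_mul, fst_J]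
    exact mul_ne_zero hj h1'
  have he' : e' ≠ 0 := by
    rintro rfl
    rw [zero_mul] at h2'
    have : n' = 0 := by
      apply IsFractionRing.injective (MvPolynomial σ K) (Rat K σ)
      rw [← h2', map_zero]
    rw [this] at hn'
    simp at hn'
  refine ⟨n * d', d * n', ?_, ?_, ?_⟩
  · rw [map_mul]; exact mul_ne_zero h1 hn'
  · rw [map_mul, map_mul, ← h2, ← h2']
    field_simp
  · rw [map_mul, map_mul, h3, h3']
    have := TrivSqZeroExt.inv_mul_cancel hj
    calc j * J w x d * J w x d' = j * 1 * J w x d * J w x d' := by ring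
      _ = j * (j'⁻¹ * j') * J w x d * J w x d' := by rw [this]
      _ = _ := by ring

lemma snd_mul_mem {W : Submodule K (ω → K)} {j j' : TrivSqZeroExt K (ω → K)} (h : j.snd ∈ W)
    (h' : j'.snd ∈ W) : (j * j').snd ∈ W := by
  rw [TrivSqZeroExt.snd_mul]
  refine W.add_mem (W.smul_mem _ h') ?_
  rw [op_smul_eq_smul]
  exact W.smul_mem _ h

lemma snd_inv_mem {W : Submodule K (ω → K)} {j : TrivSqZeroExt K (ω → K)} (hj : j.fst ≠ 0)
    (h : j.snd ∈ W) : (j⁻¹).snd ∈ W := by
  have h1 := congrArg TrivSqZeroExt.snd (TrivSqZeroExt.mul_inv_cancel hj)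
  rw [TrivSqZeroExt.snd_mul, TrivSqZeroExt.snd_one, op_smul_eq_smul] at h1
  have h2 : (j⁻¹).snd = (j.fst)⁻¹ • (- ((j⁻¹).fst • j.snd)) := by
    rw [eq_inv_smul_iff₀ hj]
    exact eq_neg_of_add_eq_zero_left h1
  rw [h2]
  exact W.smul_mem _ (W.neg_mem (W.smul_mem _ h))

lemma J_supported {w : ω → σ} {x x' : σ → K} {T : Set σ} (hx : ∀ v, v ∉ T → x v = x' v)
    {n : MvPolynomial σ K} (hn : n ∈ supported K Tᶜ) : J w x n = J w x' n := by
  rw [supported_eq_adjoin_X] at hn
  have h : Algebra.adjoin K (X '' Tᶜ) ≤ AlgHom.equalizer (J w x) (J w x') := by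
    rw [Algebra.adjoin_le_iff]
    rintro _ ⟨v, hv, rfl⟩
    show J w x (X v) = J w x' (X v)
    simp only [J, aeval_X, jet, hx v hv]
  exact h hn

end

section free

variable {K σ : Type*} [Field K] {T : Set σ}

lemma Free.zero : (0 : Rat K σ) ∈ Free K T :=
  ⟨0, Subalgebra.zero_mem _, 1, Subalgebra.one_mem _, by simp⟩

lemma Free.exists {q : Rat K σ} (h : q ∈ Free K T) : ∃ n ∈ supported K Tᶜ, ∃ d ∈ supported K Tᶜ,
    d ≠ 0 ∧
    q = algebraMap (MvPolynomial σ K) (Rat K σ) n / algebraMap (MvPolynomial σ K) (Rat K σ) d := by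
  obtain ⟨n, hn, d, hd, h⟩ := h
  by_cases h0 : d = 0
  · refine ⟨0, Subalgebra.zero_mem _, 1, Subalgebra.one_mem _, one_ne_zero, ?_⟩
    rw [h, h0]; simp
  · exact ⟨n, hn, d, hd, h0, h⟩

lemma alg_ne {d : MvPolynomial σ K} (h : d ≠ 0) :
    algebraMap (MvPolynomial σ K) (Rat K σ) d ≠ 0 := by
  intro h'
  exact h (IsFractionRing.injective (MvPolynomial σ K) (Rat K σ) (h'.trans (map_zero _).symm))

lemma Free.op {a b c : Rat K σ} (ha : a ∈ Free K T) (hb : b ∈ Free K T)
    (h : c = a + b ∨ c = a - b ∨ c = a * b ∨ c = a / b) : c ∈ Free K T := by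
  obtain ⟨n, hn, d, hd, d0, rfl⟩ := Free.exists ha
  obtain ⟨n', hn', d', hd', d0', rfl⟩ := Free.exists hb
  have e := alg_ne d0
  have e' := alg_ne d0'
  rcases h with rfl | rfl | rfl | rfl
  · refine ⟨n * d' + n' * d, Subalgebra.add_mem _ (Subalgebra.mul_mem _ hn hd')
      (Subalgebra.mul_mem _ hn' hd), d * d', Subalgebra.mul_mem _ hd hd', ?_⟩
    simp only [map_add, map_mul]
    field_simp
  · refine ⟨n * d' - n' * d, Subalgebra.sub_mem _ (Subalgebra.mul_mem _ hn hd')
      (Subalgebra.mul_mem _ hn' hd), d * d', Subalgebra.mul_mem _ hd hd', ?_⟩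
    simp only [map_sub, map_mul]
    field_simp
  · refine ⟨n * n', Subalgebra.mul_mem _ hn hn', d * d', Subalgebra.mul_mem _ hd hd', ?_⟩
    simp only [map_mul]
    field_simp
  · refine ⟨n * d', Subalgebra.mul_mem _ hn hd', d * n', Subalgebra.mul_mem _ hd hn', ?_⟩
    simp only [map_mul]
    rw [div_div_div_eq]

lemma Free.mono {T' : Set σ} (h : T ⊆ T') : Free K T' ⊆ Free K T := by
  rintro q ⟨n, hn, d, hd, h'⟩
  have hc : T'ᶜ ⊆ Tᶜ := Set.compl_subset_compl.2 h
  exact ⟨n, supported_mono hc hn, d, supported_mono hc hd, h'⟩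

lemma Avail.mono {T' : Set σ} (h : T ⊆ T') : Avail K T' ⊆ Avail K T := by
  rintro q (hq | ⟨v, hv, rfl⟩)
  · exact Or.inl (Free.mono h hq)
  · by_cases hvT : v ∈ T
    · exact Or.inr ⟨v, hvT, rfl⟩
    · left
      refine ⟨X v, ?_, 1, Subalgebra.one_mem _, by simp [var]⟩
      rw [supported_eq_adjoin_X]
      exact Algebra.subset_adjoin ⟨v, hvT, rfl⟩

end free

end Pool.Agent.H505R3.PRE
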