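import Mathlib
import Pool.Agent.H505R3.PRE.Prog

set_option autoImplicit false
set_option linter.unusedSectionVars false

namespace Pool.Agent.H505R3.PRE

open MvPolynomial

section general

variable {F : Type*} [Field F] {S : Set F}

/-- `c` is the result of one operation on elements of `A` -/
def OneOp (A : Set F) (c : F) : Prop :=
  ∃ a ∈ A, ∃ b ∈ A, (c = a + b ∨ c = a - b ∨ c = a * b ∨ c = a / b)

lemma OneOp.mono {A A' : Set F} (h : A ⊆ A') {c : F} (hc : OneOp A c) : OneOp A' c := by
  obtain ⟨a, ha, b, hb, h'⟩ := hc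
  exact ⟨a, h ha, b, h hb, h'⟩

lemma Program.subset {n : ℕ} {A : Set F} (h : Program S n A) : S ⊆ A := by
  induction h with
  | start => exact subset_rfl
  | step _ _ _ _ ih => exact ih.trans (Set.subset_insert _ _)

lemma Program.one {n : ℕ} {A : Set F} (h : Program S n A) {c : F} (hc : OneOp A c) :
    Program S (n + 1) (insert c A) := by
  obtain ⟨a, ha, b, hb, h'⟩ := hc
  exact h.step ha hb h'

lemma Program.finset {ι : Type*} [DecidableEq ι] {n : ℕ} {A : Set F} (h : Program S n A)
    (c : ι → F) (hc : ∀ i, OneOp A (c i)) (s : Finset ι) :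
    ∃ A', A ⊆ A' ∧ Program S (n + s.card) A' ∧ ∀ i ∈ s, c i ∈ A' := by
  induction s using Finset.induction_on with
  | empty => exact ⟨A, subset_rfl, by simpa using h, by simp⟩
  | @insert i s hi ih =>
    obtain ⟨A', h1, h2, h3⟩ := ih
    refine ⟨insert (c i) A', h1.trans (Set.subset_insert _ _), ?_, ?_⟩
    · rw [Finset.card_insert_of_notMem hi, ← add_assoc]
      exact h2.one ((hc i).mono h1)
    · intro j hj
      rw [Finset.mem_insert] at hj
      rcases hj with rfl | hj
      · exact Set.mem_insert _ _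
      · exact Set.mem_insert_of_mem _ (h3 j hj)

lemma Program.family {ι : Type*} [Fintype ι] {n : ℕ} {A : Set F} (h : Program S n A)
    (c : ι → F) (hc : ∀ i, OneOp A (c i)) :
    ∃ A', A ⊆ A' ∧ Program S (n + Fintype.card ι) A' ∧ ∀ i, c i ∈ A' := by
  classical
  obtain ⟨A', h1, h2, h3⟩ := h.finset c hc Finset.univ
  exact ⟨A', h1, h2, fun i => h3 i (Finset.mem_univ i)⟩

lemma det_pivot {k : ℕ} (N : Matrix (Fin (k + 1)) (Fin (k + 1)) F) (i : Fin (k + 1))
    (hi : N i 0 ≠ 0) :
    N.det = (-1) ^ (i : ℕ) * N i 0 * (Matrix.of fun a b : Fin k =>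
      N (i.succAbove a) b.succ - N (i.succAbove a) 0 / N i 0 * N i b.succ).det := by
  classical
  let B : Matrix (Fin (k + 1)) (Fin (k + 1)) F := Matrix.of fun a b =>
    N a b - (if a = i then 0 else N a 0 / N i 0) * N i b
  have h1 : N.det = B.det := by
    apply Matrix.det_eq_of_forall_row_eq_smul_add_const
      (fun a => if a = i then 0 else N a 0 / N i 0) i (if_pos rfl)
    intro a b
    simp only [B, Matrix.of_apply]
    simp
  rw [h1, Matrix.det_succ_column_zero, Finset.sum_eq_single i]
  · have h2 : B i 0 = N i 0 := by simp [B]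
    rw [h2]
    congr 2
    ext a b
    simp only [B, Matrix.submatrix_apply, Matrix.of_apply, if_neg (Fin.succAbove_ne i a)]
  · intro a _ ha
    have h2 : B a 0 = 0 := by
      simp only [B, Matrix.of_apply, if_neg ha]
      field_simp
      ring
    rw [h2]; ring
  · intro h; exact absurd (Finset.mem_univ i) h

lemma det_prog (h0 : (0 : F) ∈ S) (h1 : (1 : F) ∈ S) (h2 : (-1 : F) ∈ S) : ∀ (k : ℕ)
    (N : Matrix (Fin k) (Fin k) F) (n : ℕ) (A : Set F), Program S n A → (∀ i j, N i j ∈ A) →
    ∃ n' A', A ⊆ A' ∧ Program S n' A' ∧ n' ≤ n + (k ^ 3 + k) ∧ N.det ∈ A' := by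
  intro k
  induction k with
  | zero =>
    intro N n A hA _
    refine ⟨n, A, subset_rfl, hA, by omega, ?_⟩
    rw [Matrix.det_isEmpty]
    exact hA.subset h1
  | succ k ih =>
    intro N n A hA hN
    by_cases hz : ∀ i, N i 0 = 0
    · refine ⟨n, A, subset_rfl, hA, by omega, ?_⟩
      rw [Matrix.det_eq_zero_of_column_eq_zero 0 hz]
      exact hA.subset h0
    · push Not at hz
      obtain ⟨i, hi⟩ := hz
      -- quotients
      obtain ⟨A1, hA1, P1, m1⟩ := hA.family (fun a : Fin k => N (i.succAbove a) 0 / N i 0)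
        (fun a => ⟨_, hN (i.succAbove a) 0, _, hN i 0, Or.inr (Or.inr (Or.inr rfl))⟩)
      obtain ⟨A2, hA2, P2, m2⟩ := P1.family
        (fun ab : Fin k × Fin k => N (i.succAbove ab.1) 0 / N i 0 * N i ab.2.succ)
        (fun ab => ⟨_, m1 ab.1, _, hA1 (hN i ab.2.succ), Or.inr (Or.inr (Or.inl rfl))⟩)
      obtain ⟨A3, hA3, P3, m3⟩ := P2.family
        (fun ab : Fin k × Fin k => N (i.succAbove ab.1) ab.2.succ -
          N (i.succAbove ab.1) 0 / N i 0 * N i ab.2.succ)
        (fun ab => ⟨_, hA2 (hA1 (hN (i.succAbove ab.1) ab.2.succ)), _, m2 ab,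
          Or.inr (Or.inl rfl)⟩)
      obtain ⟨n4, A4, hA4, P4, hn4, m4⟩ := ih (Matrix.of fun a b : Fin k =>
        N (i.succAbove a) b.succ - N (i.succAbove a) 0 / N i 0 * N i b.succ) _ A3 P3
        (fun a b => m3 (a, b))
      have hsgn : ((-1 : F) ^ (i : ℕ)) ∈ A4 := by
        apply P4.subset
        rcases neg_one_pow_eq_or F (i : ℕ) with h | h
        · rw [h]; exact h1
        · rw [h]; exact h2
      have hN4 : N i 0 ∈ A4 := hA4 (hA3 (hA2 (hA1 (hN i 0))))
      have P5 := P4.one (c := (-1) ^ (i : ℕ) * N i 0)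
        ⟨_, hsgn, _, hN4, Or.inr (Or.inr (Or.inl rfl))⟩
      have P6 := P5.one (c := N.det)
        ⟨(-1) ^ (i : ℕ) * N i 0, Set.mem_insert _ _, _, Set.mem_insert_of_mem _ m4,
          Or.inr (Or.inr (Or.inl (det_pivot N i hi)))⟩
      refine ⟨n4 + 1 + 1, _, ?_, P6, ?_, Set.mem_insert _ _⟩
      · exact (hA1.trans (hA2.trans (hA3.trans hA4))).trans
          ((Set.subset_insert _ _).trans (Set.subset_insert _ _))
      · simp only [Fintype.card_prod, Fintype.card_fin] at hn4
        have e : (k + 1) ^ 3 = k ^ 3 + 3 * (k * k) + 3 * k + 1 := by ring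
        rw [e]
        omega

end general

section det

variable {K σ : Type*} [Field K]

lemma Free.one {T : Set σ} : (1 : Rat K σ) ∈ Free K T :=
  ⟨1, Subalgebra.one_mem _, 1, Subalgebra.one_mem _, by simp⟩

/-- The rational functions in the variables outside `T` form a field. -/
def freeField (K : Type*) {σ : Type*} [Field K] (T : Set σ) : Subfield (Rat K σ) where
  carrier := Free K T
  zero_mem' := Free.zero
  one_mem' := Free.one
  add_mem' ha hb := Free.op ha hb (Or.inl rfl)
  mul_mem' ha hb := Free.op ha hb (Or.inr (Or.inr (Or.inl rfl)))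
  neg_mem' {a} ha := Free.op Free.zero ha (Or.inr (Or.inl (by ring)))
  inv_mem' a ha := Free.op Free.one ha (Or.inr (Or.inr (Or.inr (by rw [one_div]))))

end det

/-- **Determinants need few operations after precomputation.** -/
theorem det_upper (K : Type*) [Field K] (m k : ℕ) (ρ γ : Fin k → Fin m)
    (hρ : Function.Injective ρ) (hγ : Function.Injective γ) :
    ∃ (n : ℕ) (A : Set (Rat K (Fin m × Fin m))), n ≤ k ^ 3 + k ^ 2 + 3 * k + 1 ∧
      Program (Avail K (Set.range fun s => (ρ s, γ s))) n A ∧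
      algebraMap (MvPolynomial (Fin m × Fin m) K) (Rat K (Fin m × Fin m))
        (Matrix.of fun i j : Fin m => (X (i, j) : MvPolynomial (Fin m × Fin m) K)).det ∈ A := by
  classical
  set T : Set (Fin m × Fin m) := Set.range fun s => (ρ s, γ s) with hT
  let al := algebraMap (MvPolynomial (Fin m × Fin m) K) (Rat K (Fin m × Fin m))
  have hkm : k ≤ m := by simpa using Fintype.card_le_of_injective ρ hρ
  -- the base matrix
  let P1 : Matrix (Fin m) (Fin m) (MvPolynomial (Fin m × Fin m) K) :=
    Matrix.of fun i j => if (i, j) ∈ T then 1 else X (i, j)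
  have hP1 : P1.det ≠ 0 := by
    obtain ⟨er, her⟩ := Pool.Agent.H567.Nec.exists_equiv_extend (ν := Fin (m - k)) ρ hρ
      (by simp; omega)
    obtain ⟨ec, hec⟩ := Pool.Agent.H567.Nec.exists_equiv_extend (ν := Fin (m - k)) γ hγ
      (by simp; omega)
    let π : Equiv.Perm (Fin m) := er.symm.trans ec
    have hπ : ∀ s, π (ρ s) = γ s := by
      intro s
      simp only [π, Equiv.trans_apply]
      rw [← her s, Equiv.symm_apply_apply, hec]
    intro h0
    have h1 := congrArg (eval fun v : Fin m × Fin m => if π v.1 = v.2 then (1 : K) else 0) h0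
    rw [RingHom.map_det, map_zero] at h1
    have h2 : (eval fun v : Fin m × Fin m => if π v.1 = v.2 then (1 : K) else 0).mapMatrix P1 =
        (1 : Matrix (Fin m) (Fin m) K).submatrix π id := by
      ext i j
      simp only [P1, RingHom.mapMatrix_apply, Matrix.map_apply, Matrix.of_apply,
        Matrix.submatrix_apply, id, Matrix.one_apply]
      by_cases hij : (i, j) ∈ T
      · rw [if_pos hij]
        obtain ⟨s, hs⟩ := hij
        have e1 : ρ s = i := congrArg Prod.fst hs
        have e2 : γ s = j := congrArg Prod.snd hs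
        rw [if_pos (by rw [← e1, ← e2, hπ])]
        simp
      · rw [if_neg hij]
        simp
    rw [h2, Matrix.det_permute, Matrix.det_one, mul_one] at h1
    rcases Int.units_eq_one_or (Equiv.Perm.sign π) with h | h <;> simp [h] at h1
  let L := freeField K T
  let B1 : Matrix (Fin m) (Fin m) L := Matrix.of fun i j =>
    ⟨al (P1 i j), by
      show al (P1 i j) ∈ Free K T
      simp only [P1, Matrix.of_apply]
      by_cases hij : (i, j) ∈ T
      · rw [if_pos hij, map_one]; exact Free.one
      · rw [if_neg hij]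
        refine ⟨X (i, j), ?_, 1, Subalgebra.one_mem _, by simp [al]⟩
        rw [supported_eq_adjoin_X]
        exact Algebra.subset_adjoin ⟨_, hij, rfl⟩⟩
  have hB1 : L.subtype.mapMatrix B1 = al.mapMatrix P1 := by
    ext i j
    rfl
  have hdB : L.subtype B1.det = al P1.det := by
    rw [RingHom.map_det, hB1, ← RingHom.map_det]
  have hB1det : B1.det ≠ 0 := by
    intro h
    rw [h, map_zero] at hdB
    exact alg_ne hP1 hdB.symm
  let A1 : Matrix (Fin m) (Fin m) (Rat K (Fin m × Fin m)) := al.mapMatrix P1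
  let C : Matrix (Fin m) (Fin m) (Rat K (Fin m × Fin m)) := L.subtype.mapMatrix B1⁻¹
  have hAC : A1 * C = 1 := by
    simp only [A1, C]
    rw [← hB1, ← map_mul, Matrix.mul_nonsing_inv _ (IsUnit.mk0 _ hB1det), map_one]
  have hCfree : ∀ i j, C i j ∈ Free K T := fun i j => (B1⁻¹ i j).2
  -- the low rank part
  let y : Fin k → Rat K (Fin m × Fin m) := fun s => var K (ρ s, γ s) - 1
  let U : Matrix (Fin m) (Fin k) (Rat K (Fin m × Fin m)) :=
    Matrix.of fun i s => if ρ s = i then 1 else 0
  let V : Matrix (Fin k) (Fin m) (Rat K (Fin m × Fin m)) :=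
    Matrix.of fun s j => if γ s = j then y s else 0
  have hG : al.mapMatrix (Matrix.of fun i j : Fin m =>
      (X (i, j) : MvPolynomial (Fin m × Fin m) K)) = A1 + U * V := by
    ext i j
    simp only [A1, RingHom.mapMatrix_apply, Matrix.map_apply, Matrix.of_apply, Matrix.add_apply,
      Matrix.mul_apply, U, V, P1]
    by_cases hij : (i, j) ∈ T
    · rw [if_pos hij]
      obtain ⟨s, hs⟩ := hij
      have e1 : ρ s = i := congrArg Prod.fst hs
      have e2 : γ s = j := congrArg Prod.snd hs
      rw [Finset.sum_eq_single s]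
      · rw [if_pos e1, if_pos e2, map_one, one_mul]
        simp only [y, var, e1, e2, al]
        ring
      · intro t _ hts
        rw [if_neg (fun h => hts (hρ (h.trans e1.symm))), zero_mul]
      · intro h; exact absurd (Finset.mem_univ s) h
    · rw [if_neg hij, Finset.sum_eq_zero, add_zero]
      intro s _
      by_cases h1 : ρ s = i
      · rw [if_neg (show ¬ γ s = j from fun h2 => hij ⟨s, Prod.ext h1 h2⟩), mul_zero]
      · rw [if_neg h1, zero_mul]
  let D : Matrix (Fin k) (Fin k) (Rat K (Fin m × Fin m)) := Matrix.of fun s t => C (γ s) (ρ t)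
  have hVCU : V * (C * U) = Matrix.of fun s t => y s * D s t := by
    ext s t
    simp only [Matrix.mul_apply, V, U, D, Matrix.of_apply]
    rw [Finset.sum_eq_single (γ s)]
    · rw [if_pos rfl, Finset.sum_eq_single (ρ t)]
      · rw [if_pos rfl, mul_one]
      · intro b _ hb; rw [if_neg (Ne.symm hb), mul_zero]
      · intro h; exact absurd (Finset.mem_univ _) h
    · intro b _ hb; rw [if_neg (Ne.symm hb), zero_mul]
    · intro h; exact absurd (Finset.mem_univ _) h
  let N : Matrix (Fin k) (Fin k) (Rat K (Fin m × Fin m)) := Matrix.of fun s t =>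
    if s = t then 1 + y s * D s t else y s * D s t
  have hdet : al (Matrix.of fun i j : Fin m =>
      (X (i, j) : MvPolynomial (Fin m × Fin m) K)).det = al P1.det * N.det := by
    rw [RingHom.map_det, hG]
    have h1 : A1 + U * V = A1 * (1 + (C * U) * V) := by
      rw [mul_add, mul_one, Matrix.mul_assoc C, ← Matrix.mul_assoc A1 C, hAC, Matrix.one_mul]
    rw [h1, Matrix.det_mul, Matrix.det_one_add_mul_comm, hVCU]
    congr 1
    · simp only [A1]
      rw [← RingHom.map_det]
    · congr 1
      ext s t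
      simp only [Matrix.add_apply, Matrix.of_apply, N, Matrix.one_apply]
      by_cases hst : s = t
      · rw [if_pos hst, if_pos hst]
      · rw [if_neg hst, if_neg hst, zero_add]
  -- the program
  have hfree : Free K T ⊆ Avail K T := Set.subset_union_left
  have P0 : Program (Avail K T) 0 (Avail K T) := Program.start
  obtain ⟨S1, hS1, Q1, m1⟩ := P0.family y (fun s =>
    ⟨var K (ρ s, γ s), Or.inr ⟨_, ⟨s, rfl⟩, rfl⟩, 1, hfree Free.one, Or.inr (Or.inl rfl)⟩)
  obtain ⟨S2, hS2, Q2, m2⟩ := Q1.family (fun st : Fin k × Fin k => y st.1 * D st.1 st.2)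
    (fun st => ⟨_, m1 st.1, _, hS1 (hfree (hCfree _ _)), Or.inr (Or.inr (Or.inl rfl))⟩)
  obtain ⟨S3, hS3, Q3, m3⟩ := Q2.family (fun s : Fin k => 1 + y s * D s s)
    (fun s => ⟨1, Q2.subset (hfree Free.one), _, m2 (s, s), Or.inl rfl⟩)
  have hN : ∀ s t, N s t ∈ S3 := by
    intro s t
    simp only [N, Matrix.of_apply]
    by_cases hst : s = t
    · subst hst
      rw [if_pos rfl]
      exact m3 s
    · rw [if_neg hst]
      exact hS3 (m2 (s, t))
  obtain ⟨n4, S4, hS4, Q4, hn4, m4⟩ := det_prog (S := Avail K T) (hfree Free.zero)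
    (hfree Free.one) (hfree ((freeField K T).neg_mem (freeField K T).one_mem)) k N _ S3 Q3 hN
  have hP1free : al P1.det ∈ Free K T := by
    rw [← hdB]
    exact B1.det.2
  refine ⟨n4 + 1, _, ?_, Q4.one (c := al (Matrix.of fun i j : Fin m =>
      (X (i, j) : MvPolynomial (Fin m × Fin m) K)).det)
    ⟨_, Q4.subset (hfree hP1free), _, m4, Or.inr (Or.inr (Or.inl hdet))⟩, Set.mem_insert _ _⟩
  simp only [Fintype.card_prod, Fintype.card_fin] at hn4
  have e : k ^ 2 = k * k := sq k
  rw [e]
  omega

end Pool.Agent.H505R3.PRE
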