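import Mathlib
import Pool.Agent.H505R3.PRE.Upper

set_option autoImplicit false
set_option linter.unusedSectionVars false

namespace Pool.Agent.H505R3.PRE

open MvPolynomial

section general

variable {F : Type*} [Field F] {S : Set F} {σ : Type*} [DecidableEq σ]

lemma horner (v : σ → F) : ∀ (T : Finset σ) (g : Finset σ → F) (n : ℕ) (A : Set F),
    Program S n A → (∀ t ∈ T, v t ∈ A) → (∀ s, g s ∈ A) →
    ∃ n' A', A ⊆ A' ∧ Program S n' A' ∧ n' + 2 ≤ n + 2 * 2 ^ T.card ∧
      (∑ s ∈ T.powerset, (∏ t ∈ s, v t) * g s) ∈ A' := by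
  intro T
  induction T using Finset.induction_on with
  | empty =>
    intro g n A hA _ hg
    refine ⟨n, A, subset_rfl, hA, by simp, ?_⟩
    simpa using hg ∅
  | @insert t T ht ih =>
    intro g n A hA hv hg
    obtain ⟨n1, A1, h1, P1, c1, m1⟩ := ih g n A hA (fun s hs => hv s (Finset.mem_insert_of_mem hs)) hg
    obtain ⟨n2, A2, h2, P2, c2, m2⟩ := ih (fun s => g (insert t s)) n1 A1 P1
      (fun s hs => h1 (hv s (Finset.mem_insert_of_mem hs))) (fun s => h1 (hg _))
    have P3 := P2.one (c := v t * ∑ s ∈ T.powerset, (∏ t ∈ s, v t) * g (insert t s))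
      ⟨_, h2 (h1 (hv t (Finset.mem_insert_self _ _))), _, m2, Or.inr (Or.inr (Or.inl rfl))⟩
    have P4 := P3.one (c := ∑ s ∈ (insert t T).powerset, (∏ t ∈ s, v t) * g s)
      ⟨_, Set.mem_insert_of_mem _ (h2 m1), _, Set.mem_insert _ _, Or.inl (by
        rw [Finset.sum_powerset_insert ht, Finset.mul_sum]
        congr 1
        apply Finset.sum_congr rfl
        intro s hs
        have hts : t ∉ s := fun h => ht (Finset.mem_powerset.1 hs h)
        rw [Finset.prod_insert hts, mul_assoc])⟩
    refine ⟨n2 + 1 + 1, _, ?_, P4, ?_, Set.mem_insert _ _⟩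
    · exact (h1.trans h2).trans ((Set.subset_insert _ _).trans (Set.subset_insert _ _))
    · rw [Finset.card_insert_of_notMem ht, pow_succ]
      omega

end general

/-- **Permanents after precomputation: upper bound.** -/
theorem perm_upper (K : Type*) [Field K] (m : ℕ) (T : Finset (Fin m × Fin m)) :
    ∃ (n : ℕ) (A : Set (Rat K (Fin m × Fin m))), n + 2 ≤ 2 * 2 ^ T.card ∧
      Program (Avail K (T : Set (Fin m × Fin m))) n A ∧
      algebraMap (MvPolynomial (Fin m × Fin m) K) (Rat K (Fin m × Fin m))
        (Matrix.of fun i j : Fin m =>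
          (X (i, j) : MvPolynomial (Fin m × Fin m) K)).permanent ∈ A := by
  classical
  let al := algebraMap (MvPolynomial (Fin m × Fin m) K) (Rat K (Fin m × Fin m))
  let sup : Equiv.Perm (Fin m) → Finset (Fin m × Fin m) := fun π =>
    T.filter fun t => π t.2 = t.1
  let gp : Finset (Fin m × Fin m) → MvPolynomial (Fin m × Fin m) K := fun s =>
    ∑ π ∈ Finset.univ.filter (fun π => sup π = s),
      ∏ i ∈ Finset.univ.filter (fun i => (π i, i) ∉ T), X (π i, i)
  have hperm : (Matrix.of fun i j : Fin m =>
      (X (i, j) : MvPolynomial (Fin m × Fin m) K)).permanent =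
      ∑ s ∈ T.powerset, (∏ t ∈ s, X t) * gp s := by
    unfold Matrix.permanent
    have hmaps : ∀ π ∈ (Finset.univ : Finset (Equiv.Perm (Fin m))), sup π ∈ T.powerset := by
      intro π _
      exact Finset.mem_powerset.2 (Finset.filter_subset _ _)
    rw [← Finset.sum_fiberwise_of_maps_to hmaps]
    apply Finset.sum_congr rfl
    intro s _
    rw [Finset.mul_sum]
    apply Finset.sum_congr rfl
    intro π hπ
    have hs : sup π = s := (Finset.mem_filter.1 hπ).2
    rw [← Finset.prod_filter_mul_prod_filter_not Finset.univ (fun i => (π i, i) ∈ T)]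
    simp only [Matrix.of_apply]
    congr 1
    rw [← hs]
    symm
    apply Finset.prod_bij' (i := fun t _ => t.2) (j := fun i _ => (π i, i))
    · intro t ht
      simp only [sup, Finset.mem_filter] at ht
      simp only [Finset.mem_filter, Finset.mem_univ, true_and]
      rw [ht.2]
      exact ht.1
    · intro i hi
      simp only [Finset.mem_filter, Finset.mem_univ, true_and] at hi
      simp only [sup, Finset.mem_filter]
      exact ⟨hi, trivial⟩
    · intro t ht
      simp only [sup, Finset.mem_filter] at ht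
      exact Prod.ext ht.2 rfl
    · intro i _
      rfl
    · intro t ht
      simp only [sup, Finset.mem_filter] at ht
      rw [ht.2]
  have hfree : Free K (T : Set (Fin m × Fin m)) ⊆ Avail K (T : Set (Fin m × Fin m)) :=
    Set.subset_union_left
  have hg : ∀ s, al (gp s) ∈ Avail K (T : Set (Fin m × Fin m)) := by
    intro s
    apply hfree
    refine ⟨gp s, ?_, 1, Subalgebra.one_mem _, by simp [al]⟩
    apply Subalgebra.sum_mem
    intro π _
    apply Subalgebra.prod_mem
    intro i hi
    rw [supported_eq_adjoin_X]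
    exact Algebra.subset_adjoin ⟨_, by simpa using hi, rfl⟩
  obtain ⟨n, A, _, hA, hn, hmem⟩ := horner (var K) T (fun s => al (gp s)) 0 _
    (Program.start (S := Avail K (T : Set (Fin m × Fin m))))
    (fun t ht => Or.inr ⟨t, ht, rfl⟩) hg
  refine ⟨n, A, by omega, hA, ?_⟩
  rw [hperm, map_sum]
  simp only [map_mul, map_prod]
  exact hmem

end Pool.Agent.H505R3.PRE
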