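import Mathlib
import Pool.Agent.H505R3.PRE.Prog

set_option autoImplicit false
set_option linter.unusedSectionVars false

namespace Pool.Agent.H505R3.PRE

open MvPolynomial Module

section

variable {K σ ω : Type} [Field K] [DecidableEq σ] [Fintype ω] [DecidableEq ω]

/-- status of a rational function with jets `j` -/
def Status (T : Set σ) {κ : Type} (W : Submodule K (ω → K)) (e : Rat K σ)
    (j : κ → TrivSqZeroExt K (ω → K)) : Prop :=
  (e ∈ Free K T ∧ ∀ k k', j k = j k') ∨ ∀ k, (j k).snd ∈ W

lemma Status.mono {T : Set σ} {κ : Type} {W W' : Submodule K (ω → K)} (h : W ≤ W') {e : Rat K σ}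
    {j : κ → TrivSqZeroExt K (ω → K)} (hs : Status T W e j) : Status T W' e j := by
  rcases hs with hs | hs
  · exact Or.inl hs
  · exact Or.inr fun k => h (hs k)

lemma main_ind {T : Set σ} {w : ω → σ} (hw : ∀ p, w p ∉ T) {n : ℕ} {A : Set (Rat K σ)}
    (hA : Program (Avail K T) n A) : ∀ E : Finset (Rat K σ), (∀ e ∈ E, e ∈ A) →
    ∃ h : MvPolynomial σ K, h ≠ 0 ∧ ∀ (κ : Type) [Nonempty κ] (x : κ → σ → K),
      (∀ k k' v, v ∉ T → x k v = x k' v) → (∀ k, eval (x k) h ≠ 0) →
      ∃ W : Submodule K (ω → K), finrank K W ≤ n ∧ ∀ e ∈ E, ∃ j : κ → TrivSqZeroExt K (ω → K),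
        (∀ k, Reg w (x k) e (j k)) ∧ Status T W e j := by
  classical
  induction hA with
  | start =>
    intro E hE
    have hex : ∀ e : Rat K σ, ∃ d : MvPolynomial σ K, d ≠ 0 ∧ (e ∈ Avail K T →
        ∀ (κ : Type) (x : κ → σ → K), (∀ k k' v, v ∉ T → x k v = x k' v) →
        (∀ k, eval (x k) d ≠ 0) → ∃ j : κ → TrivSqZeroExt K (ω → K),
        (∀ k, Reg w (x k) e (j k)) ∧ Status T (⊥ : Submodule K (ω → K)) e j) := by
      intro e
      by_cases he : e ∈ Avail K T
      · rcases he with he | ⟨v, hv, rfl⟩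
        · obtain ⟨a, ha, d, hd, hd0, rfl⟩ := Free.exists he
          refine ⟨d, hd0, fun _ κ x hx hk => ?_⟩
          refine ⟨fun k => J w (x k) a * (J w (x k) d)⁻¹, fun k => ?_, Or.inl ⟨he, ?_⟩⟩
          · refine ⟨a, d, hk k, ?_, ?_⟩
            · rw [div_mul_cancel₀ _ (alg_ne hd0)]
            · have h1 : (J w (x k) d).fst ≠ 0 := by rw [fst_J]; exact hk k
              rw [mul_assoc, TrivSqZeroExt.inv_mul_cancel h1, mul_one]
          · intro k k'
            beta_reduce
            rw [J_supported (hx k k') ha, J_supported (hx k k') hd]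
        · refine ⟨1, one_ne_zero, fun _ κ x _ _ => ?_⟩
          refine ⟨fun k => J w (x k) (X v), fun k => reg_poly _ _ _, Or.inr fun k => ?_⟩
          have : (J w (x k) (X v)).snd = 0 := by
            have h2 : ∀ p, w p ≠ v := fun p hp => hw p (hp ▸ hv)
            simp only [J, aeval_X, jet, h2, if_false]
            rw [TrivSqZeroExt.snd_add, TrivSqZeroExt.snd_inl, TrivSqZeroExt.snd_inr, zero_add]
            rfl
          rw [this]
          exact Submodule.zero_mem _
      · exact ⟨1, one_ne_zero, fun h => absurd h he⟩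
    choose d hd hd' using hex
    refine ⟨∏ e ∈ E, d e, Finset.prod_ne_zero_iff.2 fun e _ => hd e, ?_⟩
    intro κ _ x hx hk
    refine ⟨⊥, by simp, ?_⟩
    intro e he
    refine hd' e (hE e he) κ x hx fun k hk0 => hk k ?_
    rw [map_prod]
    exact Finset.prod_eq_zero he hk0
  | @step n A a b c _ ha hb hc ih =>
    intro E hE
    set E' : Finset (Rat K σ) := insert a (insert b (E.erase c)) with hE'
    obtain ⟨h, h0, H⟩ := ih E' (by
      intro e he
      rw [hE', Finset.mem_insert, Finset.mem_insert, Finset.mem_erase] at he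
      rcases he with rfl | rfl | ⟨he1, he2⟩
      · exact ha
      · exact hb
      · rcases hE e he2 with rfl | h
        · exact absurd rfl he1
        · exact h)
    have haE : a ∈ E' := by simp [hE']
    have hbE : b ∈ E' := by simp [hE']
    by_cases hb0 : b = 0
    · refine ⟨h, h0, ?_⟩
      intro κ _ x hx hk
      obtain ⟨W, hW, HW⟩ := H κ x hx hk
      refine ⟨W, by omega, ?_⟩
      intro e he
      by_cases hec : e = c
      · subst hec
        have : e = a ∨ e = 0 := by
          rcases hc with hc | hc | hc | hc <;> simp [hc, hb0]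
        rcases this with rfl | rfl
        · exact HW _ haE
        · refine ⟨fun _ => 0, fun k => ?_, Or.inl ⟨Free.zero, fun _ _ => rfl⟩⟩
          have := reg_poly w (x k) (0 : MvPolynomial σ K)
          rwa [map_zero, map_zero] at this
      · exact HW e (by simp [hE', hec, he])
    · obtain ⟨nb, db, hdb, hbeq⟩ := IsFractionRing.div_surjective (A := MvPolynomial σ K) b
      have hdb0 : db ≠ 0 := nonZeroDivisors.ne_zero hdb
      have hnb0 : nb ≠ 0 := by
        rintro rfl
        apply hb0
        rw [← hbeq, map_zero, zero_div]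
      refine ⟨h * nb * db, mul_ne_zero (mul_ne_zero h0 hnb0) hdb0, ?_⟩
      intro κ hκ x hx hk
      have hk1 : ∀ k, eval (x k) h ≠ 0 := by
        intro k h'
        apply hk k
        rw [map_mul, map_mul, h', zero_mul, zero_mul]
      have hk2 : ∀ k, eval (x k) nb ≠ 0 := by
        intro k h'
        apply hk k
        rw [map_mul, map_mul, h', mul_zero, zero_mul]
      have hk3 : ∀ k, eval (x k) db ≠ 0 := by
        intro k h'
        apply hk k
        rw [map_mul, h', mul_zero]
      obtain ⟨W, hW, HW⟩ := H κ x hx hk1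
      obtain ⟨ja, hja, sa⟩ := HW a haE
      obtain ⟨jb, hjb, sb⟩ := HW b hbE
      have hjb0 : ∀ k, (jb k).fst ≠ 0 := by
        intro k
        obtain ⟨n', d', h1, h2, h3⟩ := hjb k
        intro h4
        have h5 : n' * db = nb * d' := by
          apply IsFractionRing.injective (MvPolynomial σ K) (Rat K σ)
          rw [map_mul, map_mul, ← h2, ← hbeq]
          have := alg_ne hdb0
          field_simp
        have h6 := congrArg (eval (x k)) h5
        rw [map_mul, map_mul, ← fst_J w (x k) n', h3, TrivSqZeroExt.fst_mul, h4, zero_mul,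
          zero_mul] at h6
        exact mul_ne_zero (hk2 k) h1 h6.symm
      obtain ⟨jc, hjc, hc1, hc2⟩ : ∃ jc : κ → TrivSqZeroExt K (ω → K),
          (∀ k, Reg w (x k) c (jc k)) ∧
          ((∀ k k', ja k = ja k') → (∀ k k', jb k = jb k') → ∀ k k', jc k = jc k') ∧
          (∀ W' : Submodule K (ω → K), (∀ k, (ja k).snd ∈ W') → (∀ k, (jb k).snd ∈ W') →
            ∀ k, (jc k).snd ∈ W') := by
        rcases hc with rfl | rfl | rfl | rfl
        · refine ⟨fun k => ja k + jb k, fun k => (hja k).add (hjb k), ?_, ?_⟩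
          · intro h1 h2 k k'; beta_reduce; rw [h1 k k', h2 k k']
          · intro W' h1 h2 k
            rw [TrivSqZeroExt.snd_add]
            exact W'.add_mem (h1 k) (h2 k)
        · refine ⟨fun k => ja k - jb k, fun k => (hja k).sub (hjb k), ?_, ?_⟩
          · intro h1 h2 k k'; beta_reduce; rw [h1 k k', h2 k k']
          · intro W' h1 h2 k
            rw [TrivSqZeroExt.snd_sub]
            exact W'.sub_mem (h1 k) (h2 k)
        · refine ⟨fun k => ja k * jb k, fun k => (hja k).mul (hjb k), ?_, ?_⟩
          · intro h1 h2 k k'; beta_reduce; rw [h1 k k', h2 k k']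
          · intro W' h1 h2 k
            exact snd_mul_mem (h1 k) (h2 k)
        · refine ⟨fun k => ja k * (jb k)⁻¹, fun k => (hja k).div (hjb k) (hjb0 k), ?_, ?_⟩
          · intro h1 h2 k k'; beta_reduce; rw [h1 k k', h2 k k']
          · intro W' h1 h2 k
            exact snd_mul_mem (h1 k) (snd_inv_mem (hjb0 k) (h2 k))
      obtain ⟨k0⟩ := hκ
      have key : ∃ W' : Submodule K (ω → K), W ≤ W' ∧ finrank K W' ≤ n + 1 ∧
          Status T W' c jc := by
        have hadd : ∀ v : ω → K, finrank K ↥(W ⊔ Submodule.span K {v}) ≤ n + 1 := by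
          intro v
          have h1 := Submodule.finrank_add_le_finrank_add_finrank W (Submodule.span K {v})
          have h2 : finrank K ↥(Submodule.span K {v}) ≤ 1 := by
            have h3 := finrank_span_le_card (R := K) ({v} : Set (ω → K))
            simpa using h3
          omega
        rcases sa with ⟨sa1, sa2⟩ | sa <;> rcases sb with ⟨sb1, sb2⟩ | sb
        · exact ⟨W, le_refl _, by omega, Or.inl ⟨Free.op sa1 sb1 hc, hc1 sa2 sb2⟩⟩
        · refine ⟨W ⊔ Submodule.span K {(ja k0).snd}, le_sup_left, hadd _, Or.inr ?_⟩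
          apply hc2
          · intro k
            rw [sa2 k k0]
            exact le_sup_right (a := W) (Submodule.mem_span_singleton_self _)
          · intro k
            exact le_sup_left (b := Submodule.span K {(ja k0).snd}) (sb k)
        · refine ⟨W ⊔ Submodule.span K {(jb k0).snd}, le_sup_left, hadd _, Or.inr ?_⟩
          apply hc2
          · intro k
            exact le_sup_left (b := Submodule.span K {(jb k0).snd}) (sa k)
          · intro k
            rw [sb2 k k0]
            exact le_sup_right (a := W) (Submodule.mem_span_singleton_self _)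
        · exact ⟨W, le_refl _, by omega, Or.inr (hc2 W sa sb)⟩
      obtain ⟨W', hWW', hfin, hst⟩ := key
      refine ⟨W', hfin, ?_⟩
      intro e he
      by_cases hec : e = c
      · subst hec
        exact ⟨jc, hjc, hst⟩
      · obtain ⟨j, h1, h2⟩ := HW e (by simp [hE', hec, he])
        exact ⟨j, h1, h2.mono hWW'⟩

/-- points in general position -/
lemma exists_generic [Infinite K] {T : Set σ} {w : ω → σ} {f : MvPolynomial σ K} {Ξ : Type}
    {x0 : Ξ → σ → K} (hx0 : ∀ ξ ξ' v, v ∉ T → x0 ξ v = x0 ξ' v)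
    (hspan : ∀ A : Submodule K (ω → K), (∀ ξ, (J w (x0 ξ) f).snd ∈ A) → A = ⊤)
    (h : MvPolynomial σ K) (h0 : h ≠ 0) (hne : Nonempty Ξ) :
    ∃ x : ω → σ → K, (∀ k k' v, v ∉ T → x k v = x k' v) ∧ (∀ k, eval (x k) h ≠ 0) ∧
      (Matrix.of fun k p => eval (x k) (pderiv (w p) f)).det ≠ 0 := by
  classical
  -- choose a basis among the gradients
  set s : Set (ω → K) := Set.range fun ξ => (J w (x0 ξ) f).snd with hs
  have hs1 : Submodule.span K s = ⊤ := hspan _ fun ξ => Submodule.subset_span ⟨ξ, rfl⟩
  obtain ⟨g, hg1, _, hg3⟩ := Submodule.exists_fun_fin_finrank_span_eq K s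
  have hcard : finrank K ↥(Submodule.span K s) = Fintype.card ω := by
    rw [hs1, finrank_top]
    exact Module.finrank_fintype_fun_eq_card K
  let e : ω ≃ Fin (finrank K ↥(Submodule.span K s)) :=
    (Fintype.equivFin ω).trans (finCongr hcard.symm)
  choose ξ hξ using hg1
  have hξ' : ∀ i, (J w (x0 (ξ i)) f).snd = g i := hξ
  have hdet0 : (Matrix.of fun k p => eval (x0 (ξ (e k))) (pderiv (w p) f)).det ≠ 0 := by
    have hli : LinearIndependent K (fun k : ω => g (e k)) := hg3.comp e e.injective
    have heq : (Matrix.of fun k p => eval (x0 (ξ (e k))) (pderiv (w p) f))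
        = Matrix.of (fun k : ω => g (e k)) := by
      ext k p
      rw [Matrix.of_apply, Matrix.of_apply, ← hξ', snd_J]
    rw [heq]
    have := Matrix.linearIndependent_rows_iff_isUnit (A := Matrix.of (fun k : ω => g (e k)))
    have h2 : IsUnit (Matrix.of (fun k : ω => g (e k))) := this.1 hli
    exact ((Matrix.isUnit_iff_isUnit_det _).1 h2).ne_zero
  -- generic point
  obtain ⟨ξ0⟩ := hne
  let F : ω → σ → σ ⊕ (ω × σ) := fun k v => if v ∈ T then Sum.inr (k, v) else Sum.inl v
  have hF : ∀ k, Function.Injective (F k) := by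
    intro k a b hab
    simp only [F] at hab
    by_cases ha : a ∈ T <;> by_cases hb : b ∈ T
    · rw [if_pos ha, if_pos hb, Sum.inr.injEq, Prod.mk.injEq] at hab
      exact hab.2
    · rw [if_pos ha, if_neg hb] at hab; cases hab
    · rw [if_neg ha, if_pos hb] at hab; cases hab
    · rw [if_neg ha, if_neg hb] at hab
      exact Sum.inl.inj hab
  let D : MvPolynomial (σ ⊕ (ω × σ)) K :=
    (Matrix.of fun k p => rename (F k) (pderiv (w p) f)).det
  have hDeval : ∀ y : σ ⊕ (ω × σ) → K,
      eval y D = (Matrix.of fun k p => eval (y ∘ F k) (pderiv (w p) f)).det := by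
    intro y
    simp only [D]
    rw [RingHom.map_det]
    congr 1
    ext k p
    simp [RingHom.mapMatrix_apply, eval_rename]
  have hD : D ≠ 0 := by
    intro hD0
    let y : σ ⊕ (ω × σ) → K := Sum.elim (x0 ξ0) (fun kv => x0 (ξ (e kv.1)) kv.2)
    have h1 := hDeval y
    rw [hD0, map_zero] at h1
    apply hdet0
    rw [h1]
    congr 1
    ext k p
    rw [Matrix.of_apply, Matrix.of_apply]
    congr 2
    funext v
    simp only [Function.comp, F, y]
    by_cases hv : v ∈ T
    · rw [if_pos hv]; rfl
    · rw [if_neg hv]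
      simp only [Sum.elim_inl]
      exact hx0 _ _ v hv
  let P : MvPolynomial (σ ⊕ (ω × σ)) K := D * ∏ k, rename (F k) h
  have hP : P ≠ 0 := by
    refine mul_ne_zero hD (Finset.prod_ne_zero_iff.2 fun k _ => ?_)
    intro h'
    exact h0 (rename_injective _ (hF k) (h'.trans (map_zero _).symm))
  obtain ⟨y, hy⟩ : ∃ y, eval y P ≠ 0 := by
    by_contra hcon
    push Not at hcon
    apply hP
    apply MvPolynomial.funext
    intro y
    rw [hcon y, map_zero]
  refine ⟨fun k => y ∘ F k, ?_, ?_, ?_⟩
  · intro k k' v hv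
    simp only [Function.comp, F, if_neg hv]
  · intro k hk
    apply hy
    simp only [P]
    rw [map_mul, map_prod, Finset.prod_eq_zero (Finset.mem_univ k), mul_zero]
    rw [eval_rename]
    exact hk
  · intro hdet
    apply hy
    simp only [P]
    rw [map_mul, hDeval, hdet, zero_mul]

/-- **Lower bound.** -/
theorem lower_bound [Infinite K] {T : Set σ} {w : ω → σ} (hw : ∀ p, w p ∉ T)
    {f : MvPolynomial σ K} {Ξ : Type}
    {x0 : Ξ → σ → K} (hx0 : ∀ ξ ξ' v, v ∉ T → x0 ξ v = x0 ξ' v)
    (hspan : ∀ A : Submodule K (ω → K), (∀ ξ, (J w (x0 ξ) f).snd ∈ A) → A = ⊤)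
    (hne : Nonempty Ξ) (hcard : 2 ≤ Fintype.card ω) {n : ℕ} {A : Set (Rat K σ)}
    (hA : Program (Avail K T) n A) (hf : algebraMap (MvPolynomial σ K) (Rat K σ) f ∈ A) :
    Fintype.card ω ≤ n := by
  classical
  obtain ⟨h, h0, H⟩ := main_ind hw hA {algebraMap (MvPolynomial σ K) (Rat K σ) f} (by
    intro e he
    rw [Finset.mem_singleton] at he
    rw [he]; exact hf)
  obtain ⟨x, hx1, hx2, hx3⟩ := exists_generic (w := w) (f := f) hx0 hspan h h0 hne
  have : Nonempty ω := Fintype.card_pos_iff.1 (by omega)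
  obtain ⟨W, hW, HW⟩ := H ω x hx1 hx2
  obtain ⟨j, hj, hst⟩ := HW _ (Finset.mem_singleton_self _)
  have hj' : ∀ k, j k = J w (x k) f := fun k => (hj k).unique (reg_poly w (x k) f)
  have hrow : ∀ k, (j k).snd = (fun p => eval (x k) (pderiv (w p) f)) := by
    intro k
    funext p
    rw [hj', snd_J]
  rcases hst with ⟨_, hst⟩ | hst
  · exfalso
    obtain ⟨a, b, hab⟩ := Fintype.exists_pair_of_one_lt_card (α := ω) (by omega)
    apply hx3
    apply Matrix.det_zero_of_row_eq hab
    have := hrow a
    rw [hst a b, hrow b] at this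
    exact this.symm
  · have hli : LinearIndependent K (Matrix.of fun k p => eval (x k) (pderiv (w p) f)) :=
      Matrix.linearIndependent_rows_iff_isUnit.2
        ((Matrix.isUnit_iff_isUnit_det _).2 (IsUnit.mk0 _ hx3))
    have hmem : ∀ k, (Matrix.of fun k p => eval (x k) (pderiv (w p) f)) k ∈ W := by
      intro k
      have := hst k
      rw [hrow k] at this
      exact this
    have hli' : LinearIndependent K (fun k : ω => (⟨_, hmem k⟩ : W)) := by
      apply LinearIndependent.of_comp W.subtype
      exact hli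
    have := hli'.fintype_card_le_finrank
    omega

end

/-- **Permanents need many operations even after precomputation.** -/
theorem perm_lower {K : Type} [Field K] [CharZero K] (m r n' : ℕ) (hm : 2 * r + n' ≤ m)
    (hn : n' ≤ 2 ^ r) (hn2 : 2 ≤ n') (ρ γ : Fin (2 * r) → Fin m) (hρ : Function.Injective ρ)
    (hγ : Function.Injective γ) (T : Set (Fin m × Fin m)) (hT : ∀ s, (ρ s, γ s) ∈ T) {n : ℕ}
    {A : Set (Rat K (Fin m × Fin m))} (hA : Program (Avail K T) n A)
    (hf : algebraMap (MvPolynomial (Fin m × Fin m) K) (Rat K (Fin m × Fin m))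
      (Matrix.of fun i j : Fin m => (X (i, j) : MvPolynomial (Fin m × Fin m) K)).permanent ∈ A) :
    n' ^ 2 ≤ n := by
  classical
  have : Infinite K := Infinite.of_injective (Nat.cast : ℕ → K) Nat.cast_injective
  obtain ⟨Ξ, w, x, _, hw, hx, hspan⟩ := exists_points K m r n' hm hn ρ γ hρ hγ
  set T0 : Set (Fin m × Fin m) := Set.range fun s => (ρ s, γ s) with hT0
  obtain ⟨A', hAA', hA'⟩ := hA.mono (Avail.mono (K := K) (T := T0) (T' := T) (by
    rintro _ ⟨s, rfl⟩; exact hT s))
  have := lower_bound (K := K) (σ := Fin m × Fin m) (ω := Fin n' × Fin n') (T := T0) (w := w)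
    (by
      rintro p ⟨s, hs⟩
      exact hw p s hs.symm)
    (f := Pool.Agent.H567.Nec.gperm K m) (Ξ := Ξ → K) (x0 := x)
    (by
      intro ξ ξ' v hv
      apply hx
      intro s hs
      exact hv ⟨s, hs.symm⟩)
    hspan ⟨fun _ => 0⟩ (by
      simp only [Fintype.card_prod, Fintype.card_fin]; nlinarith) hA' (hAA' hf)
  simpa [sq] using this

end Pool.Agent.H505R3.PRE
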